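import Pool.Agent.H802.TreeCl.Last2
import Pool.Graph.R_seed8.R367.TF.LOW

set_option autoImplicit false

namespace Pool.Agent.Results.MP_8c28bb_co.ExactRange

open Finset

/-- `a C(k-1, r) + C(b, r)` for `n = a (k-1) + b`, `0 ≤ b < k - 1`. -/
def value (k r n : ℕ) : ℕ := (n / (k - 1)) * Nat.choose (k - 1) r + Nat.choose (n % (k - 1)) r

/-- the number of `r`-cliques -/
noncomputable def cliques {n : ℕ} (G : SimpleGraph (Fin n)) (r : ℕ) : ℕ :=
  {s : Finset (Fin n) | G.IsNClique r s}.ncard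

/-- `ex(n, K_r, T) = a C(k-1,r) + C(b,r)` for `n = a (k-1) + b`, `0 ≤ b < k - 1`. -/
def Exact {k : ℕ} (T : SimpleGraph (Fin k)) (r n : ℕ) : Prop :=
  (∀ G : SimpleGraph (Fin n), T.Free G → cliques G r ≤ value k r n) ∧
  (∃ G : SimpleGraph (Fin n), T.Free G ∧ cliques G r = value k r n)

theorem cliques_eq {n : ℕ} (G : SimpleGraph (Fin n)) [DecidableRel G.Adj] (r : ℕ) :
    cliques G r = (H223R3.Tree.cl G r univ).card := by
  unfold cliques
  rw [H223R3.Tree.cliqueSet_eq, Set.ncard_coe_finset]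

theorem noCopy {n k : ℕ} (T : SimpleGraph (Fin k)) (G : SimpleGraph (Fin n))
    (hG : T.Free G) : H223R3.Tree.NoCopy G T univ := by
  rintro ⟨f, f1, _, f3⟩
  exact hG ⟨⟨⟨f, fun {a b} hab => f3 a b hab⟩, f1⟩⟩

theorem exact_of_upper {k : ℕ} (hk : 2 ≤ k) (T : SimpleGraph (Fin k)) (hT : T.IsTree) {r n : ℕ}
    (hr : 1 ≤ r)
    (h : ∀ G : SimpleGraph (Fin n), T.Free G → cliques G r ≤ value k r n) : Exact T r n := by
  refine ⟨h, R367.TF.blk n (k - 1), H223R3.Tree.blocks_free hk T hT, ?_⟩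
  exact le_antisymm (h _ (H223R3.Tree.blocks_free hk T hT))
    (R367.TF.LOW.main n (k - 1) r (by omega) hr)

/-- Let `T` be a tree on `k ≥ 4` vertices, `3 ≤ r ≤ k - 1`, `n = a (k-1) + b`, `0 ≤ b < k - 1`.
Then `ex(n, K_r, T) = a C(k-1,r) + C(b,r)` whenever `k ≤ 2 r`, or `b = k - 2`, or
`b (k-1-r) C(k-2,r-1) ≤ (k-1)(r-2) C(k-2,r-1) + (k-3) r C(b,r)`. The last condition holds if
`b (k-1-r) ≤ (k-1)(r-2)`, in particular for all `b ≤ r - 2`. -/
theorem result : ∀ (k : ℕ), 4 ≤ k → ∀ T : SimpleGraph (Fin k), T.IsTree →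
    ∀ r : ℕ, 3 ≤ r → r ≤ k - 1 → ∀ n : ℕ,
      (k ≤ 2 * r ∨ n % (k - 1) = k - 2 ∨
        (n % (k - 1)) * (k - 1 - r) * (k - 2).choose (r - 1) ≤
          (k - 1) * (r - 2) * (k - 2).choose (r - 1) +
            (k - 3) * (r * (n % (k - 1)).choose r)) →
      Exact T r n := by
  classical
  intro k hk T hT r hr3 hrk n hn
  obtain ⟨K, rfl⟩ : ∃ K, k = K + 4 := ⟨k - 4, by omega⟩
  obtain ⟨R, rfl⟩ : ∃ R, r = R + 3 := ⟨r - 3, by omega⟩
  have hR : R ≤ K := by omega
  have e1 : K + 4 - 1 = K + 3 := by omega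
  have e2 : K + 4 - 2 = K + 2 := by omega
  have e3 : K + 4 - 3 = K + 1 := by omega
  have e4 : K + 4 - 1 - (R + 3) = K - R := by omega
  have e5 : R + 3 - 1 = R + 2 := by omega
  have e6 : R + 3 - 2 = R + 1 := by omega
  rw [e4, e1, e2, e3, e5, e6] at hn
  have hg : H802.TreeCl.Good K R (n % (K + 3)) := by
    rcases hn with hn | hn | hn
    · exact H802.TreeCl.good_half K R _ hR hn (Nat.mod_lt _ (by omega))
    · rw [hn]; exact H802.TreeCl.good_last K R hR
    · exact hn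
  apply exact_of_upper (by omega) T hT (by omega)
  intro G hG
  by_contra hcon
  push Not at hcon
  have hc : (univ : Finset (Fin n)).card = n := by simp
  have h' : H802.TreeCl.f (K + 3) (R + 3) (univ : Finset (Fin n)).card <
      (H223R3.Tree.cl G (R + 3) univ).card := by
    rw [hc, ← cliques_eq]; exact hcon
  by_cases hns : ∀ p, ∃ w, w ≠ p ∧ ¬ T.Adj p w
  · exact H802.TreeCl.reduce5 G T hT K R hR (Fintype.card_fin _) hns univ (noCopy T G hG)
        (by rw [hc]; exact hg) h'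
  · push Not at hns
    obtain ⟨p, hp⟩ := hns
    have h1 := H802.TreeCl.star G T hT K R (Fintype.card_fin _) p hp univ (noCopy T G hG)
    omega

end Pool.Agent.Results.MP_8c28bb_co.ExactRange
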