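import Pool.Agent.H802.TreeCl.Split

set_option autoImplicit false

namespace Pool.Agent.Results.MP_8c28bb_co.Stability

open Finset

/-- `a C(k-1, r) + C(b, r)` for `n = a (k-1) + b`, `0 ≤ b < k - 1`. -/
def value (k r n : ℕ) : ℕ := (n / (k - 1)) * Nat.choose (k - 1) r + Nat.choose (n % (k - 1)) r

/-- the number of `r`-cliques -/
noncomputable def cliques {n : ℕ} (G : SimpleGraph (Fin n)) (r : ℕ) : ℕ :=
  {s : Finset (Fin n) | G.IsNClique r s}.ncard

/-- The vertices which do not lie in a connected component that is a complete graph on `k - 1`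
vertices. -/
def outside {n : ℕ} (G : SimpleGraph (Fin n)) (k : ℕ) : Set (Fin n) :=
  {v | ¬ ∃ Q : Finset (Fin n), v ∈ Q ∧ G.IsNClique (k - 1) Q ∧
    ∀ x ∈ Q, ∀ y, y ∉ Q → ¬ G.Adj x y}

theorem cliques_eq {n : ℕ} (G : SimpleGraph (Fin n)) [DecidableRel G.Adj] (r : ℕ) :
    cliques G r = (H223R3.Tree.cl G r univ).card := by
  unfold cliques
  rw [H223R3.Tree.cliqueSet_eq, Set.ncard_coe_finset]

theorem noCopy {n k : ℕ} (T : SimpleGraph (Fin k)) (G : SimpleGraph (Fin n))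
    (hG : T.Free G) : H223R3.Tree.NoCopy G T univ := by
  rintro ⟨f, f1, _, f3⟩
  exact hG ⟨⟨⟨f, fun {a b} hab => f3 a b hab⟩, f1⟩⟩

/-- Let `T` be a tree on `k ≥ 4` vertices, `3 ≤ r ≤ k - 1`, `n = a (k-1) + b`, `0 ≤ b < k - 1`. If
`G` is a `T`-free graph on `n` vertices with at least `a C(k-1,r) + C(b,r)` cliques `K_r`, then at
most `b (k-2)(k-3) / ((r-1)(r-2))` vertices of `G` lie outside the components which are complete
graphs on `k - 1` vertices. -/
theorem result : ∀ (k : ℕ), 4 ≤ k → ∀ T : SimpleGraph (Fin k), T.IsTree →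
    ∀ r : ℕ, 3 ≤ r → r ≤ k - 1 → ∀ (n : ℕ) (G : SimpleGraph (Fin n)), T.Free G →
      value k r n ≤ cliques G r →
      (r - 1) * (r - 2) * (outside G k).ncard ≤ (n % (k - 1)) * ((k - 2) * (k - 3)) := by
  classical
  intro k hk T hT r hr3 hrk n G hG h
  obtain ⟨K, rfl⟩ : ∃ K, k = K + 4 := ⟨k - 4, by omega⟩
  obtain ⟨R, rfl⟩ : ∃ R, r = R + 3 := ⟨r - 3, by omega⟩
  have hR : R ≤ K := by omega
  have e1 : K + 4 - 1 = K + 3 := by omega
  have e2 : K + 4 - 2 = K + 2 := by omega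
  have e3 : K + 4 - 3 = K + 1 := by omega
  have e5 : R + 3 - 1 = R + 2 := by omega
  have e6 : R + 3 - 2 = R + 1 := by omega
  have hc : (univ : Finset (Fin n)).card = n := by simp
  have h' : H802.TreeCl.f (K + 3) (R + 3) (univ : Finset (Fin n)).card ≤
      (H223R3.Tree.cl G (R + 3) univ).card := by
    rw [hc, ← cliques_eq]; exact h
  obtain ⟨a, S', _, _, h3, h4, _⟩ := H802.TreeCl.reduce G T hT K R hR (Fintype.card_fin _)
    univ (noCopy T G hG) h'
  rw [hc] at h3
  have hout : outside G (K + 4) ⊆ (S' : Set (Fin n)) := by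
    intro v hv
    by_contra hv'
    obtain ⟨Q, hQ, hvQ, hQc⟩ := h4 v (mem_univ _) (by exact_mod_cast hv')
    apply hv
    have hQ2 : Q ∈ {s : Finset (Fin n) | G.IsNClique (K + 3) s} := by
      rw [H223R3.Tree.cliqueSet_eq]
      exact_mod_cast hQ
    exact ⟨Q, hvQ, hQ2, fun x hx y hy => hQc x hx y (mem_univ _) hy⟩
  have h5 : (outside G (K + 4)).ncard ≤ S'.card := by
    rw [← Set.ncard_coe_finset]
    exact Set.ncard_le_ncard hout (Finset.finite_toSet _)
  rw [e1, e2, e3, e5, e6]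
  exact (Nat.mul_le_mul_left _ h5).trans h3

end Pool.Agent.Results.MP_8c28bb_co.Stability
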